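import Pool.Agent.H34.CGS.Stmts

/-!
# Board `cgs`, row MXD (helper80): expansion of words in `x + s S`
-/

set_option autoImplicit false

namespace Pool.CGS

open Pool.CGR

namespace MXD80

/-- the linear extension of a function on words -/
noncomputable def L {α B : Type} [Ring B] [Algebra ℂ B] (F : List α → B) (P : List α →₀ ℂ) : B :=
  P.sum fun W r => r • F W

section

variable {α B : Type} [Ring B] [Algebra ℂ B]

theorem L_single (F : List α → B) (W : List α) : L F (Finsupp.single W 1) = F W := by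
  rw [L, Finsupp.sum_single_index (by rw [zero_smul]), one_smul]

theorem L_add (F : List α → B) (P Q : List α →₀ ℂ) : L F (P + Q) = L F P + L F Q := by
  rw [L, L, L]
  exact Finsupp.sum_add_index' (fun _ => zero_smul _ _) (fun _ _ _ => add_smul _ _ _)

theorem L_smul (F : List α → B) (r : ℂ) (P : List α →₀ ℂ) : L F (r • P) = r • L F P := by
  have h := Finsupp.sum_smul_index (g := P) (b := r) (h := fun W r => r • F W)
    (fun W => zero_smul ℂ (F W))
  rw [L, L, h, Finsupp.smul_sum]
  exact Finsupp.sum_congr fun _ _ => mul_smul _ _ _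

theorem L_map (F : List α → B) (g : List α → List α) (P : List α →₀ ℂ) :
    L F (P.mapDomain g) = L (fun W => F (g W)) P := by
  rw [L, L]
  exact Finsupp.sum_mapDomain_index (fun _ => zero_smul _ _) (fun _ _ _ => add_smul _ _ _)

theorem L_fadd (F G : List α → B) (P : List α →₀ ℂ) :
    L (fun W => F W + G W) P = L F P + L G P := by
  rw [L, L, L, ← Finsupp.sum_add]
  exact Finsupp.sum_congr fun _ _ => smul_add _ _ _

theorem L_fmul (b : B) (F : List α → B) (P : List α →₀ ℂ) :
    L (fun W => b * F W) P = b * L F P := by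
  rw [L, L, Finsupp.mul_sum]
  exact Finsupp.sum_congr fun _ _ => (mul_smul_comm _ _ _).symm

theorem L_fzero (P : List α →₀ ℂ) : L (fun _ => (0 : B)) P = 0 := by
  rw [L]
  simp

theorem L_fif (c : Prop) [Decidable c] (F : List α → B) (P : List α →₀ ℂ) :
    L (fun W => if c then F W else 0) P = if c then L F P else 0 := by
  split_ifs
  · rfl
  · exact L_fzero P

end

theorem L_mix {m : ℕ} {B : Type} [Ring B] [Algebra ℂ B] (s : ℂ) (F : List (Fin m ⊕ Fin m) → B)
    (j : Fin m) (w : List (Fin m)) : L F (mix s (j :: w)) =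
      L (fun W => F (Sum.inl j :: W)) (mix s w) + s • L (fun W => F (Sum.inr j :: W)) (mix s w) := by
  rw [mix, L_add, L_smul, L_map, L_map]

end MXD80

open MXD80

theorem mxd_thm (h1 : DVCStmt) : MXDStmt := by
  intro m B _ _ x S s w
  have hev : ∀ (α : Type) (y : α → B) (j : α) (v : List α), ev y (j :: v) = y j * ev y v := by
    intro α y j v
    simp [ev]
  have hdz : ∀ (c : Fin m ⊕ Fin m) (a : B) (j : Fin m ⊕ Fin m) (v : List (Fin m ⊕ Fin m)),
      dv (Sum.elim x S) c a (j :: v) = (if j = c then a * ev (Sum.elim x S) v else 0) +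
        Sum.elim x S j * dv (Sum.elim x S) c a v := fun c a j v =>
    (h1 (Fin m ⊕ Fin m) B (Sum.elim x S) c a).2.1 j v
  have hdx : ∀ (c : Fin m) (a : B) (j : Fin m) (v : List (Fin m)),
      dv (sh x S s) c a (j :: v) = (if j = c then a * ev (sh x S s) v else 0) +
        sh x S s j * dv (sh x S s) c a v := fun c a j v =>
    (h1 (Fin m) B (sh x S s) c a).2.1 j v
  show ev (sh x S s) w = L (ev (Sum.elim x S)) (mix s w) ∧
    (∀ (i : Fin m) (a : B), dv (sh x S s) i a w =
      L (dv (Sum.elim x S) (Sum.inl i) a) (mix s w)) ∧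
    ∀ (i : Fin m) (a : B), s • dv (sh x S s) i a w =
      L (dv (Sum.elim x S) (Sum.inr i) a) (mix s w)
  induction w with
  | nil =>
    have hm : mix s ([] : List (Fin m)) = Finsupp.single [] 1 := rfl
    rw [hm]
    refine ⟨?_, fun i a => ?_, fun i a => ?_⟩
    · rw [L_single]
      simp [ev]
    · rw [L_single, (h1 _ _ _ _ _).1, (h1 _ _ _ _ _).1]
    · rw [L_single, (h1 _ _ _ _ _).1, (h1 _ _ _ _ _).1, smul_zero]
  | cons j w ih =>
    obtain ⟨i1, i2, i3⟩ := ih
    refine ⟨?_, fun i a => ?_, fun i a => ?_⟩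
    · rw [L_mix]
      simp only [hev, Sum.elim_inl, Sum.elim_inr]
      rw [L_fmul, L_fmul, ← i1]
      show (x j + s • S j) * ev (sh x S s) w = _
      rw [add_mul, smul_mul_assoc]
    · rw [L_mix]
      simp only [hdz, hdx, Sum.elim_inl, Sum.elim_inr]
      rw [L_fadd, L_fadd, L_fmul, L_fmul, L_fif, L_fif, L_fmul, ← i1, ← i2]
      rw [if_neg (by simp : ¬ (Sum.inr j : Fin m ⊕ Fin m) = Sum.inl i)]
      have e : ((Sum.inl j : Fin m ⊕ Fin m) = Sum.inl i) = (j = i) := by simp
      simp only [e]
      show _ + (x j + s • S j) * _ = _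
      rw [add_mul, smul_mul_assoc, zero_add, add_assoc]
    · rw [L_mix]
      simp only [hdz, hdx, Sum.elim_inl, Sum.elim_inr]
      rw [L_fadd, L_fadd, L_fmul, L_fmul, L_fif, L_fif, L_fmul, ← i1, ← i3]
      rw [if_neg (by simp : ¬ (Sum.inl j : Fin m ⊕ Fin m) = Sum.inr i)]
      have e : ((Sum.inr j : Fin m ⊕ Fin m) = Sum.inr i) = (j = i) := by simp
      simp only [e]
      show s • (_ + (x j + s • S j) * _) = _
      rw [add_mul, smul_mul_assoc, zero_add, smul_add, smul_add, mul_smul_comm, mul_smul_comm,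
        smul_add]
      abel

end Pool.CGS
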